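import Pool.Agent.H484.AL.Stm

/-!
# AL: second moment at level `t`
-/

set_option autoImplicit false

namespace Pool.Agent.H670.AL.MOM2

open Finset Pool.Agent.H484.AL
open scoped Classical

/-- non-parallel pairs -/
noncomputable def NPc (e g M a0 B : ℕ) (α b : Fin e → ℕ) (t : ℕ) (j j' : Fin e → ℕ) : ℕ :=
  ((Lset e g B α j ×ˢ Lset e g B α j').filter (fun z => ¬ Par e z.1 z.2 ∧
    EvC e g M a0 B α b t j z.1 ∧ EvC e g M a0 B α b t j' z.2)).card

/-- parallel different pairs in one cell -/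
noncomputable def PPc (e g M a0 B : ℕ) (α b : Fin e → ℕ) (t : ℕ) (j : Fin e → ℕ) : ℕ :=
  ((Lset e g B α j ×ˢ Lset e g B α j).filter (fun z => z.1 ≠ z.2 ∧ Par e z.1 z.2 ∧
    EvC e g M a0 B α b t j z.1 ∧ EvC e g M a0 B α b t j z.2)).card

theorem NN_mul (e g M a0 B : ℕ) (α b : Fin e → ℕ) (t : ℕ) (j j' : Fin e → ℕ) :
    NN e g M a0 B α b t j * NN e g M a0 B α b t j' =
      ((Lset e g B α j ×ˢ Lset e g B α j').filter (fun z =>
        EvC e g M a0 B α b t j z.1 ∧ EvC e g M a0 B α b t j' z.2)).card := by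
  unfold NN
  rw [← Finset.card_product, ← Finset.filter_product]

theorem pt (hC : S_CROSS) (e B g M a0 J : ℕ) (α b : Fin e → ℕ) (hR : Reg e B g M a0 α J)
    (t : ℕ) (ht : t ≤ J) (j j' : Fin e → ℕ) (hj : j ∈ jset e J) (hj' : j' ∈ jset e J) :
    NN e g M a0 B α b t j * NN e g M a0 B α b t j' ≤ NPc e g M a0 B α b t j j' +
      (if j = j' then NN e g M a0 B α b t j + PPc e g M a0 B α b t j else 0) := by
  rw [NN_mul]
  by_cases h : j = j'
  · subst h
    rw [if_pos rfl]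
    unfold NPc PPc
    have hNN : NN e g M a0 B α b t j = (((Lset e g B α j).filter
        (fun l => EvC e g M a0 B α b t j l)).image (fun l => (l, l))).card := by
      rw [Finset.card_image_of_injective]
      · rfl
      · intro x y hxy
        exact (Prod.mk.inj hxy).1
    rw [hNN]
    refine le_trans (Finset.card_le_card ?_) (le_trans (Finset.card_union_le _ _)
      (Nat.add_le_add_left (Finset.card_union_le _ _) _))
    rintro ⟨l, l'⟩ hz
    simp only [Finset.mem_filter, Finset.mem_product] at hz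
    obtain ⟨⟨hl, hl'⟩, h1, h2⟩ := hz
    simp only [Finset.mem_union, Finset.mem_filter, Finset.mem_product, Finset.mem_image,
      Prod.mk.injEq]
    by_cases hP : Par e l l'
    · by_cases hll : l = l'
      · right; left
        exact ⟨l, ⟨hl, h1⟩, rfl, hll⟩
      · right; right
        exact ⟨⟨hl, hl'⟩, hll, hP, h1, h2⟩
    · left
      exact ⟨⟨hl, hl'⟩, hP, h1, h2⟩
  · rw [if_neg h, add_zero]
    unfold NPc
    refine Finset.card_le_card ?_
    rintro ⟨l, l'⟩ hz
    simp only [Finset.mem_filter, Finset.mem_product] at hz ⊢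
    obtain ⟨⟨hl, hl'⟩, h1, h2⟩ := hz
    refine ⟨⟨hl, hl'⟩, ?_, h1, h2⟩
    intro hP
    exact hC e B g M a0 J α b hR t t j j' ht ht hj hj' (fun hh => h hh.2) (Or.inl rfl)
      l hl l' hl' hP h1 h2

theorem sumNP (hNP : S_NP) (e B g M a0 J : ℕ) (α : Fin e → ℕ) (hR : Reg e B g M a0 α J)
    (t : ℕ) (ht : t ≤ J) (j j' : Fin e → ℕ) (hj : j ∈ jset e J) (hj' : j' ∈ jset e J) :
    ∑ b : Fin e → Fin M, (NPc e g M a0 B α (fun i => (b i : ℕ)) t j j' : ℝ) ≤
      (1 + 1 / (B : ℝ) ^ J) ^ 2 * (M : ℝ) ^ (e - 2) *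
        ((((Lset e g B α j).card : ℝ) * (kap e (g * M) B t j : ℝ)) *
        (((Lset e g B α j').card : ℝ) * (kap e (g * M) B t j' : ℝ))) := by
  have h1 : ∑ b : Fin e → Fin M, NPc e g M a0 B α (fun i => (b i : ℕ)) t j j' =
      ∑ z ∈ Lset e g B α j ×ˢ Lset e g B α j', (univ.filter (fun b : Fin e → Fin M =>
        ¬ Par e z.1 z.2 ∧ EvC e g M a0 B α (fun i => (b i : ℕ)) t j z.1 ∧
        EvC e g M a0 B α (fun i => (b i : ℕ)) t j' z.2)).card := by
    unfold NPc
    simp only [Finset.card_filter]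
    exact Finset.sum_comm
  have h2 : ∑ b : Fin e → Fin M, (NPc e g M a0 B α (fun i => (b i : ℕ)) t j j' : ℝ) =
      ∑ z ∈ Lset e g B α j ×ˢ Lset e g B α j', ((univ.filter (fun b : Fin e → Fin M =>
        ¬ Par e z.1 z.2 ∧ EvC e g M a0 B α (fun i => (b i : ℕ)) t j z.1 ∧
        EvC e g M a0 B α (fun i => (b i : ℕ)) t j' z.2)).card : ℝ) := by
    exact_mod_cast h1
  rw [h2]
  have h3 : ∀ z ∈ Lset e g B α j ×ˢ Lset e g B α j', ((univ.filter (fun b : Fin e → Fin M =>
        ¬ Par e z.1 z.2 ∧ EvC e g M a0 B α (fun i => (b i : ℕ)) t j z.1 ∧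
        EvC e g M a0 B α (fun i => (b i : ℕ)) t j' z.2)).card : ℝ) ≤
      (1 + 1 / (B : ℝ) ^ J) ^ 2 * ((kap e (g * M) B t j : ℝ) * (kap e (g * M) B t j' : ℝ)) *
        (M : ℝ) ^ (e - 2) := by
    rintro ⟨l, l'⟩ hz
    rw [Finset.mem_product] at hz
    by_cases hP : Par e l l'
    · have h4 : (univ.filter (fun b : Fin e → Fin M =>
        ¬ Par e l l' ∧ EvC e g M a0 B α (fun i => (b i : ℕ)) t j l ∧
        EvC e g M a0 B α (fun i => (b i : ℕ)) t j' l')) = ∅ := by
        refine Finset.filter_eq_empty_iff.mpr ?_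
        intro b _ hb
        exact hb.1 hP
      show ((univ.filter (fun b : Fin e → Fin M =>
        ¬ Par e l l' ∧ EvC e g M a0 B α (fun i => (b i : ℕ)) t j l ∧
        EvC e g M a0 B α (fun i => (b i : ℕ)) t j' l')).card : ℝ) ≤ _
      rw [h4]
      simp only [Finset.card_empty, Nat.cast_zero]
      positivity
    · refine le_trans ?_ (hNP e B g M a0 J α hR t t j j' ht ht hj hj' l hz.1 l' hz.2 hP)
      have h5 := Finset.card_le_card (s := univ.filter (fun b : Fin e → Fin M =>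
        ¬ Par e l l' ∧ EvC e g M a0 B α (fun i => (b i : ℕ)) t j l ∧
        EvC e g M a0 B α (fun i => (b i : ℕ)) t j' l'))
        (t := univ.filter (fun b : Fin e → Fin M => EvC e g M a0 B α (fun i => (b i : ℕ)) t j l ∧
          EvC e g M a0 B α (fun i => (b i : ℕ)) t j' l')) (by
          intro b hb
          rw [Finset.mem_filter] at hb ⊢
          exact ⟨hb.1, hb.2.2⟩)
      exact_mod_cast h5
  refine (Finset.sum_le_sum h3).trans (le_of_eq ?_)
  rw [Finset.sum_const, Finset.card_product, nsmul_eq_mul]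
  push_cast
  ring

theorem card_jset (e J : ℕ) : (jset e J).card = (2 * J) ^ e := by
  unfold jset
  rw [Fintype.card_piFinset]
  simp only [Nat.card_Ico, Finset.prod_const, Finset.card_univ, Fintype.card_fin]
  have h : 5 * J - 3 * J = 2 * J := by omega
  rw [h]

end Pool.Agent.H670.AL.MOM2

open Finset Pool.Agent.H484.AL Pool.Agent.H670.AL.MOM2 in
open scoped Classical in
theorem Pool.Agent.H484.AL.t_MOM2 (hNP : S_NP) (hCROSS : S_CROSS) (hPARC : S_PARC)
    (hMOM1 : S_MOM1) : S_MOM2 := by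
  intro e B g M a0 J α hR t ht
  have hB : (0 : ℝ) < (B : ℝ) := by
    have := hR.hB
    exact_mod_cast (show 0 < B by omega)
  have hM1 : 1 ≤ M := by
    have h1 : 1 ≤ B ^ (40 * e * J) := Nat.one_le_pow _ _ (by have := hR.hB; omega)
    have h2 := h1.trans hR.hN
    rcases Nat.eq_zero_or_pos M with h0 | h0
    · rw [h0, Nat.mul_zero] at h2
      omega
    · exact h0
  have hM : (0 : ℝ) < (M : ℝ) := by exact_mod_cast hM1
  have hBt : (0 : ℝ) < (B : ℝ) ^ t := by positivity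
  -- the pointwise bound
  have hpt : ∀ b : Fin e → Fin M, (Mt e g M a0 B J α (fun i => (b i : ℕ)) t) ^ 2 ≤
      (∑ j ∈ jset e J, ∑ j' ∈ jset e J, (NPc e g M a0 B α (fun i => (b i : ℕ)) t j j' : ℝ)) +
      (Mt e g M a0 B J α (fun i => (b i : ℕ)) t +
        ∑ j ∈ jset e J, (PPc e g M a0 B α (fun i => (b i : ℕ)) t j : ℝ)) := by
    intro b
    unfold Mt
    rw [sq, Finset.sum_mul_sum]
    have h1 : ∀ j ∈ jset e J, ∀ j' ∈ jset e J,
        (NN e g M a0 B α (fun i => (b i : ℕ)) t j : ℝ) *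
          (NN e g M a0 B α (fun i => (b i : ℕ)) t j' : ℝ) ≤
        (NPc e g M a0 B α (fun i => (b i : ℕ)) t j j' : ℝ) +
        (if j = j' then ((NN e g M a0 B α (fun i => (b i : ℕ)) t j : ℝ) +
          (PPc e g M a0 B α (fun i => (b i : ℕ)) t j : ℝ)) else 0) := by
      intro j hj j' hj'
      have h2 := pt hCROSS e B g M a0 J α (fun i => (b i : ℕ)) hR t ht j j' hj hj'
      have h3 : ((NN e g M a0 B α (fun i => (b i : ℕ)) t j *
          NN e g M a0 B α (fun i => (b i : ℕ)) t j' : ℕ) : ℝ) ≤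
        ((NPc e g M a0 B α (fun i => (b i : ℕ)) t j j' +
        (if j = j' then (NN e g M a0 B α (fun i => (b i : ℕ)) t j +
          PPc e g M a0 B α (fun i => (b i : ℕ)) t j) else 0) : ℕ) : ℝ) := by
        exact_mod_cast h2
      push_cast at h3
      exact h3
    calc ∑ j ∈ jset e J, ∑ j' ∈ jset e J, (NN e g M a0 B α (fun i => (b i : ℕ)) t j : ℝ) *
          (NN e g M a0 B α (fun i => (b i : ℕ)) t j' : ℝ)
        ≤ ∑ j ∈ jset e J, ∑ j' ∈ jset e J,
          ((NPc e g M a0 B α (fun i => (b i : ℕ)) t j j' : ℝ) +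
        (if j = j' then ((NN e g M a0 B α (fun i => (b i : ℕ)) t j : ℝ) +
          (PPc e g M a0 B α (fun i => (b i : ℕ)) t j : ℝ)) else 0)) :=
          Finset.sum_le_sum fun j hj => Finset.sum_le_sum fun j' hj' => h1 j hj j' hj'
      _ = _ := by
          simp only [Finset.sum_add_distrib, Finset.sum_ite_eq]
          congr 1
          rw [← Finset.sum_add_distrib, Finset.sum_congr rfl]
          intro j hj
          rw [if_pos hj]
  have hsum := Finset.sum_le_sum (s := (univ : Finset (Fin e → Fin M))) (fun b _ => hpt b)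
  refine hsum.trans ?_
  rw [Finset.sum_add_distrib, Finset.sum_add_distrib]
  -- part 1
  have hS : ∑ j ∈ jset e J, (((Lset e g B α j).card : ℝ) * (kap e (g * M) B t j : ℝ)) =
      AA e g M B J α t * (M : ℝ) := by
    unfold AA
    rw [Finset.sum_mul]
    refine Finset.sum_congr rfl fun j _ => ?_
    field_simp
  have p1 : ∑ b : Fin e → Fin M, ∑ j ∈ jset e J, ∑ j' ∈ jset e J,
      (NPc e g M a0 B α (fun i => (b i : ℕ)) t j j' : ℝ) ≤
      (1 + 1 / (B : ℝ) ^ J) ^ 2 * (AA e g M B J α t) ^ 2 * (M : ℝ) ^ e := by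
    rw [Finset.sum_comm]
    have h1 : ∀ j ∈ jset e J, ∑ b : Fin e → Fin M, ∑ j' ∈ jset e J,
        (NPc e g M a0 B α (fun i => (b i : ℕ)) t j j' : ℝ) ≤
        ∑ j' ∈ jset e J, (1 + 1 / (B : ℝ) ^ J) ^ 2 * (M : ℝ) ^ (e - 2) *
        ((((Lset e g B α j).card : ℝ) * (kap e (g * M) B t j : ℝ)) *
        (((Lset e g B α j').card : ℝ) * (kap e (g * M) B t j' : ℝ))) := by
      intro j hj
      rw [Finset.sum_comm]
      exact Finset.sum_le_sum fun j' hj' => sumNP hNP e B g M a0 J α hR t ht j j' hj hj'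
    refine (Finset.sum_le_sum h1).trans (le_of_eq ?_)
    have h2 : (M : ℝ) ^ e = (M : ℝ) ^ (e - 2) * (M : ℝ) ^ 2 := by
      rw [← pow_add]
      congr 1
      have := hR.he
      omega
    calc ∑ j ∈ jset e J, ∑ j' ∈ jset e J, (1 + 1 / (B : ℝ) ^ J) ^ 2 * (M : ℝ) ^ (e - 2) *
        ((((Lset e g B α j).card : ℝ) * (kap e (g * M) B t j : ℝ)) *
        (((Lset e g B α j').card : ℝ) * (kap e (g * M) B t j' : ℝ)))
        = (1 + 1 / (B : ℝ) ^ J) ^ 2 * (M : ℝ) ^ (e - 2) *
          ((∑ j ∈ jset e J, (((Lset e g B α j).card : ℝ) * (kap e (g * M) B t j : ℝ))) *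
          (∑ j' ∈ jset e J, (((Lset e g B α j').card : ℝ) * (kap e (g * M) B t j' : ℝ)))) := by
          rw [Finset.sum_mul_sum, Finset.mul_sum]
          refine Finset.sum_congr rfl fun j _ => ?_
          rw [Finset.mul_sum]
      _ = _ := by
          rw [hS, h2]
          ring
  -- part 3
  have p3 : ∑ b : Fin e → Fin M, ∑ j ∈ jset e J,
      (PPc e g M a0 B α (fun i => (b i : ℕ)) t j : ℝ) ≤
      4 * 3 ^ (e + 1) * (2 * (J : ℝ)) ^ e / (B : ℝ) ^ t * (M : ℝ) ^ e := by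
    rw [Finset.sum_comm]
    have h1 : ∀ j ∈ jset e J, ∑ b : Fin e → Fin M,
        (PPc e g M a0 B α (fun i => (b i : ℕ)) t j : ℝ) ≤
        4 * 3 ^ (e + 1) * (M : ℝ) ^ e / (B : ℝ) ^ t := by
      intro j hj
      rw [le_div_iff₀ hBt]
      have h2 := hPARC e B g M a0 J α hR t j ht hj
      have h3 : ((B ^ t * ∑ b : Fin e → Fin M, PPc e g M a0 B α (fun i => (b i : ℕ)) t j : ℕ) : ℝ)
          ≤ ((4 * 3 ^ (e + 1) * M ^ e : ℕ) : ℝ) := by
        exact_mod_cast h2
      push_cast at h3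
      linarith
    refine (Finset.sum_le_sum h1).trans (le_of_eq ?_)
    rw [Finset.sum_const, card_jset, nsmul_eq_mul]
    push_cast
    ring
  have p2 := (hMOM1 e B g M a0 J α hR t ht).1
  linarith [p1, p2, p3]
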